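import Pool.Agent.KS6_81.CN.Defs
import Pool.Agent.KS6_80.CC.Cls

set_option autoImplicit false
set_option linter.unusedSectionVars false
set_option linter.unusedVariables false

/-! # Cones with a good exceptional divisor: the class -/

namespace Pool.Agent.KS6_81.CN

open MvPolynomial MeasureTheory Set Filter Topology Metric
open Pool.Agent.W574.SM Pool.Agent.W574.RO Pool.Agent.Y229 Pool.Agent.W574.LM
open Pool.Agent.W574.HS Pool.Agent.W574.CN
open Pool.Agent.TH192.DT Pool.Agent.R852.TL Pool.Agent.R779.HK Pool.Agent.T6.H26.HankMix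
open Pool.Agent.Y230.TL (StJ StU StL)
open Pool.Agent.H628R4.TP (IsBFunction IsLocalBFunction)
open Pool.Agent.T6.H26 Pool.Agent.T6.H26.DC
open Pool.Agent.KS6_80.CC (cone_gen)

/-- the condition gives the root `-(∑ w_i) / d` modulo `ℤ` -/
def RootCond (G : Cond) : Prop :=
  ∀ (n : ℕ) (w : Fin (n + 1) → ℕ) (d : ℕ) (f : MvPolynomial (Fin (n + 1)) ℂ),
    (∀ i, 0 < w i) → 0 < d → f.IsWeightedHomogeneous w d → G n w d f → f ≠ 0 ∧
      ∀ b : Polynomial ℂ, IsBFunction f b →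
        ∃ l : ℤ, b.eval (-((∑ i, w i : ℕ) : ℂ) / d + (l : ℂ)) = 0

variable {G : Cond}

/-- **Cones: poles and forced roots.** -/
theorem gcone_cl (hG : RootCond G) (K : Fam → RatFunc ℂ → Prop)
    (hK : ∀ A Z, K A Z → ∀ s₀ : ℂ, Z.denom.eval s₀ = 0 → ∃ t ∈ intC, FoL A (s₀ - t))
    (A : Fam) (Z : RatFunc ℂ) (h : GCone G K A Z) : Finite A.σ ∧ (∃ j, A.f j ≠ 0) ∧
      ∀ s₀ : ℂ, Z.denom.eval s₀ = 0 → ∃ t ∈ intC, FoL A (s₀ - t) := by
  obtain ⟨n, d, hd, w, hw, f, hf, hc, m, κ, Z, χ, hκ, hχ, ht, h⟩ := h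
  obtain ⟨hF0, hr⟩ := hG n w d f hw hd hf hc
  exact ⟨inferInstanceAs (Finite (Fin (n + 1))), ⟨0, hF0⟩,
    cone_gen K hK n d hd w hw f hf hF0 hr m κ Z χ hκ hχ h⟩

/-- **The induction.** -/
theorem tg_closure (hG : RootCond G) (hJ : StJ) (hU : StU) (hL : StL) (k : ℕ) :
    ∀ (c : Bool) (A : Fam) (Z : RatFunc ℂ), TG G k c A Z → Pool.Agent.Y230.TL.Cl intC c A Z := by
  induction k with
  | zero =>
    intro c A Z h
    refine Pool.Agent.R852.TL.tq_closure hJ hU hL intC int_div _ _ (fun A Z h => ?_)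
      (fun A Z h => cl_mono natC_le (Pool.Agent.Y230.TL.weakHyp_cl hL A Z h)) c A Z h
    obtain ⟨h1, h2, h3⟩ := weakD_at A Z h
    refine ⟨h1, h2, fun s hs => ?_⟩
    obtain ⟨t, ht, h4⟩ := h3 s hs
    exact ⟨t, natC_le ht, h4⟩
  | succ k ih =>
    intro c A Z h
    refine Pool.Agent.R852.TL.tq_closure hJ hU hL intC int_div _ _ (fun A Z h => ?_)
      (fun A Z h => ih true A Z h) c A Z h
    rcases h with h | h | h
    · have h1 := ih false A Z h
      exact ⟨h1.fin, h1.ne, h1.pole⟩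
    · exact wcone_cl intC intC_countable _ (fun A Z h => ih false A Z h) A Z h
    · refine gcone_cl hG _ (fun A Z h => ?_) A Z h
      rcases h with h | h
      · exact (ih false A Z h).pole
      · exact (ih true A Z h).pole

/-- **The weak conjecture at the origin for the hypersurfaces in the class.** -/
theorem tg_weak (hG : RootCond G) (hJ : StJ) (hU : StU) (hL : StL) (k : ℕ) (c : Bool) {σ : Type}
    (F : MvPolynomial σ ℂ) (Z : RatFunc ℂ)
    (h : TG G k c ⟨σ, Fin 1, fun _ => F⟩ Z) (b : Polynomial ℂ)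
    (hb : IsLocalBFunction F b) (s₀ : ℂ) (hs : Z.denom.eval s₀ = 0) :
    ∃ l : ℤ, b.eval (s₀ + (l : ℂ)) = 0 := by
  have hC := tg_closure hG hJ hU hL k c _ Z h
  obtain ⟨t, ht, h1⟩ := hC.pole s₀ hs
  obtain ⟨i, rfl⟩ := ht
  obtain ⟨j, hj⟩ := hC.ne
  refine ⟨-i, ?_⟩
  have h2 := Pool.Agent.Y230.TL.root_of_sf hC.fin F hj _ h1 b hb
  rw [Int.cast_neg, ← sub_eq_add_neg]
  exact h2

/-- **The weak conjecture at the origin for the hypersurfaces in the class.** -/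
theorem tg_main (hG : RootCond G) (k : ℕ) (c : Bool) (σ : Type) (F : MvPolynomial σ ℂ)
    (Z : RatFunc ℂ) (h : TG G k c ⟨σ, Fin 1, fun _ => F⟩ Z) (b : Polynomial ℂ)
    (hb : IsLocalBFunction F b) (s₀ : ℂ) (hs : Z.denom.eval s₀ = 0) :
    ∃ l : ℤ, b.eval (s₀ + (l : ℂ)) = 0 := by
  have hJ : StJ := Pool.Agent.Y448.TL.tJ Pool.Agent.Y230.TL.tA Pool.Agent.Y64.TL.tB
  have hU : StU := Pool.Agent.Y230.TL.tU Pool.Agent.Y64.TL.tB
  have hL : StL := Pool.Agent.Y475.TL.tL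
  exact tg_weak hG hJ hU hL k c F Z h b hb s₀ hs

/-- a cone whose root `-(∑ w_i)/d` is exact gives the root modulo `ℤ` -/
lemma exact_root {n : ℕ} {w : Fin (n + 1) → ℕ} {d : ℕ} {b : Polynomial ℂ}
    (h : b.eval (-((∑ i, w i : ℕ) : ℂ) / d) = 0) :
    ∃ l : ℤ, b.eval (-((∑ i, w i : ℕ) : ℂ) / d + (l : ℂ)) = 0 :=
  ⟨0, by rw [Int.cast_zero, add_zero]; exact h⟩

end Pool.Agent.KS6_81.CN
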