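import Pool.Agent.KS6_80.CC.Defs

set_option autoImplicit false

/-! # Cones with a good exceptional divisor: definitions -/

namespace Pool.Agent.KS6_81.CN

open MvPolynomial
open Pool.Agent.W574.SM Pool.Agent.W574.RO Pool.Agent.Y229
open Pool.Agent.TH192.DT Pool.Agent.R852.TL Pool.Agent.T6.H26

/-- A condition `G n w d f` for weighted homogeneous polynomials `f` in `x_0, …, x_n`. -/
abbrev Cond := ∀ n : ℕ, (Fin (n + 1) → ℕ) → ℕ → MvPolynomial (Fin (n + 1)) ℂ → Prop

/-- **Cones over hypersurfaces with the condition `G`.** `GCone G Cl A Z`: the family `A` consists of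
one polynomial `f` in `x_0, …, x_n`, weighted homogeneous of the degree `d > 0` for weights `w_i > 0`,
which satisfies the condition `G`. For every point `a ≠ 0` of `ℂ ^ (n + 1)` the germ of `f` at `a` on
some hyperplane `x_i = a_i`, `a_i ≠ 0` (which is transversal to the orbit of `a` under the action
`c • a = (c ^ w_i a_i)_i` of the multiplicative group) is in the class `Cl`, with the local topological
zeta function `Z (κ a)`, where `κ` is constant on the orbits. All these germs are tame (which holds
automatically if all weights are `1`). Let `χ q` be the orbifold Euler characteristic of the set of the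
orbits with `κ = q`: each orbit is counted with the order of its stabiliser. The weighted blow-up of
the origin gives `(d s + ∑ w_i) Z_f(s) = ∑_q χ q Z_q(s)` for the local topological zeta function `Z_f` of
`f` at the origin. -/
inductive GCone (G : Cond) (Cl : Fam → RatFunc ℂ → Prop) : Fam → RatFunc ℂ → Prop
  | mk (n d : ℕ) (hd : 0 < d) (w : Fin (n + 1) → ℕ) (hw : ∀ i, 0 < w i)
      (f : MvPolynomial (Fin (n + 1)) ℂ) (hf : f.IsWeightedHomogeneous w d)
      (hc : G n w d f)
      (m : ℕ) (κ : (Fin (n + 1) → ℂ) → Fin m) (Z : Fin m → RatFunc ℂ) (χ : Fin m → ℤ)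
      (hκ : ∀ a (c : ℂ), c ≠ 0 → Adm w a → κ (fun i => c ^ w i * a i) = κ a)
      (hχ : ∀ q, χ q ≠ 0 → ∃ a, Adm w a ∧ κ a = q)
      (ht : ∀ a, Adm w a → Tame w (fun _ : Fin 1 => f) a)
      (h : ∀ a, Adm w a → ∃ i, w i ≠ 0 ∧ a i ≠ 0 ∧
        Cl ⟨Fin n, Fin 1, fun _ => slc i a f⟩ (Z (κ a))) :
      GCone G Cl ⟨Fin (n + 1), Fin 1, fun _ => f⟩
        ((∑ q, (χ q : RatFunc ℂ) * Z q) * fac d (∑ i, w i))

/-- The germs which are obtained from the germs of ideals in the class `WeakD` and of hypersurfaces in
the class `WeakHyp` by the operations of `TQ` (sums and products in disjoint sets of variables,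
`∑ y_j f_j(x)`, `∑ y_j f_j(x) + g(z)`, products of powers of forms, powers, dropping variables), by
weighted cones over ideals (`WCone`), and by cones over hypersurfaces with the condition `G`
(`GCone`), nested at most `k` times: `TG G k false A Z` for ideals and `TG G k true A Z` for
hypersurfaces, with their local topological zeta functions `Z`. -/
def TG (G : Cond) : ℕ → Bool → Fam → RatFunc ℂ → Prop
  | 0 => TQ WeakD Pool.Agent.Y230.TL.WeakHyp
  | k + 1 => TQ (fun A Z => TG G k false A Z ∨ WCone (TG G k false) A Z ∨
      GCone G (fun A Z => TG G k false A Z ∨ TG G k true A Z) A Z) (TG G k true)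

end Pool.Agent.KS6_81.CN
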