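import Pool.Agent.KS6_81.CN.Defs
import Pool.Graph.R_seed8.H628R4.TP.LocDefs

set_option autoImplicit false

/-! # Cones with the root `-W/d`: the condition -/

namespace Pool.Agent.KS6_81.CN

open MvPolynomial
open Pool.Agent.H628R4.TP (IsLocalBFunction)

/-- The condition for the cones: `f ≠ 0`, and every polynomial `b` with a functional equation
`b(s) f ^ s = P(s) f ^ (s + 1)`, `P(s)` with formal power series coefficients at the origin, has a root in
`-(∑ w_i)/d + ℤ`. -/
def HasRoot (n : ℕ) (w : Fin (n + 1) → ℕ) (d : ℕ) (f : MvPolynomial (Fin (n + 1)) ℂ) : Prop :=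
  f ≠ 0 ∧ ∀ b, IsLocalBFunction f b → ∃ l : ℤ, b.eval (-(∑ i, w i : ℕ) / d + l : ℂ) = 0

end Pool.Agent.KS6_81.CN
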