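import Pool.Agent.KS6_81.CN.Cls
import Pool.Agent.KS6_81.CN.RDefs
import Pool.Graph.R_seed8.H628R4.TP.LocDefs

set_option autoImplicit false

/-! # Global functional equations are local ones -/

namespace Pool.Agent.KS6_81.CN

open MvPolynomial
open Pool.Agent.H628R4.TP (IsBFunction IsLocalBFunction weylS)

theorem local_of_isB {σ : Type} {f : MvPolynomial σ ℂ} {b : Polynomial ℂ} (hb : IsBFunction f b) :
    IsLocalBFunction f b := by
  classical
  obtain ⟨P, hP⟩ := hb
  set e := P.support.equivFin.symm with he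
  refine ⟨P.support.card, fun i => ((e i : ℕ)), fun _ => 1, fun i => P (e i), fun s => ?_⟩
  have h1 := congrArg (fun p : MvPolynomial σ ℂ => (p : MvPowerSeries σ ℂ)) (hP s)
  simp only [MvPolynomial.coe_mul, MvPolynomial.coe_C] at h1
  rw [h1, Finsupp.sum]
  have h2 : ((∑ a ∈ P.support, ((s : ℂ) ^ a) •
      ((P a : weylS σ) : Module.End ℂ (MvPolynomial σ ℂ)) (f ^ (s + 1)) : MvPolynomial σ ℂ) :
        MvPowerSeries σ ℂ) = ∑ a ∈ P.support, MvPowerSeries.C ((s : ℂ) ^ a) *
          ((((P a : weylS σ) : Module.End ℂ (MvPolynomial σ ℂ)) (f ^ (s + 1)) :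
            MvPolynomial σ ℂ) : MvPowerSeries σ ℂ) := by
    rw [← MvPolynomial.coeToMvPowerSeries.ringHom_apply, map_sum]
    refine Finset.sum_congr rfl fun a _ => ?_
    rw [MvPolynomial.coeToMvPowerSeries.ringHom_apply, MvPolynomial.smul_eq_C_mul,
      MvPolynomial.coe_mul, MvPolynomial.coe_C]
  refine Eq.trans h2 ?_
  rw [← Finset.sum_coe_sort P.support (fun a => MvPowerSeries.C ((s : ℂ) ^ a) *
    ((((P a : weylS σ) : Module.End ℂ (MvPolynomial σ ℂ)) (f ^ (s + 1)) :
      MvPolynomial σ ℂ) : MvPowerSeries σ ℂ)), ← Equiv.sum_comp e]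
  refine Finset.sum_congr rfl fun i _ => ?_
  rw [one_mul]

theorem rootCond_hasRoot : RootCond HasRoot := fun _ _ _ _ _ _ _ h =>
  ⟨h.1, fun b hb => h.2 b (local_of_isB hb)⟩

end Pool.Agent.KS6_81.CN
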