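import Mathlib

set_option autoImplicit false

/-! # Plane curves with semi-quasi-homogeneous singularities: definitions -/

namespace Pool.Agent.KS6_81.CN

open MvPolynomial

/-- all monomials of `a` have a weight `≥ j` -/
def Ge (w : Fin 2 → ℕ) (j : ℕ) (a : MvPolynomial (Fin 2) ℂ) : Prop :=
  ∀ m, a.coeff m ≠ 0 → j ≤ Finsupp.weight w m

/-- the restriction to the chart `z = 1` -/
noncomputable def ch (f : MvPolynomial (Fin 3) ℂ) : MvPolynomial (Fin 2) ℂ :=
  aeval ![X 0, X 1, 1] f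

/-- the linear change of the coordinates with the matrix `A` -/
noncomputable def lc (A : Matrix (Fin 3) (Fin 3) ℂ) (f : MvPolynomial (Fin 3) ℂ) :
    MvPolynomial (Fin 3) ℂ := aeval (fun i => ∑ l, C (A i l) * X l) f

/-- The data of a semi-quasi-homogeneous singularity of the curve `∏ F_i = 0` at the point
`(p_0 : p_1 : 1)`. In the étale polynomial coordinates `Φ` of the plane `z = 1` and for the weights `w`
the factors `F_i` have the weighted homogeneous initial forms `H_i` of the degrees `D_i`, whose product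
`h` has an isolated singularity, and all the other terms of `F_i` have degrees `≥ D_i + κ`. The number
`E` bounds the conditions at this point, `n_i` are the multiplicities of the factors, `s = ∑ D_i`. -/
def SqhPoint {r : ℕ} (F : Fin r → MvPolynomial (Fin 3) ℂ) (n : Fin r → ℕ) (d E : ℕ)
    (p : Fin 2 → ℂ) (w : Fin 2 → ℕ) (Φ : MvPolynomial (Fin 2) ℂ →ₐ[ℂ] MvPolynomial (Fin 2) ℂ) :
    Prop :=
  ∃ (D : Fin r → ℕ) (H : Fin r → MvPolynomial (Fin 2) ℂ) (h : MvPolynomial (Fin 2) ℂ) (s κ : ℕ),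
    h = ∏ i, H i ∧ s = ∑ i, D i ∧ (∀ k, 0 < w k ∧ w k ≤ s ∧ constantCoeff (Φ (X k)) = p k) ∧
    (∀ i, (H i).IsWeightedHomogeneous w (D i) ∧ Ge w (D i + κ) (Φ (ch (F i)) - H i)) ∧
    (∀ q k, q k ≠ 0 → eval q h = 0 → ∃ l, eval q (pderiv l h) ≠ 0) ∧
    constantCoeff (Matrix.det fun i k => pderiv i (Φ (X k))) ≠ 0 ∧ 1 ≤ κ ∧
    s + 1 ≤ E + 2 * ∑ k, w k + κ ∧
    ∀ M : ℕ, M * d = 3 * ∑ i, n i * D i → s + 1 ≤ E + ∑ k, w k + M

/-- The form `f` of degree `d` in three variables defines a plane curve with semi-quasi-homogeneous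
singularities which impose independent conditions.

In suitable linear coordinates `f = ∏ F_i ^ n_i` with forms `F_i` of degree `a_i`, `h = ∏ F_i` squarefree
of degree `t`, `n_i ≥ 1` arbitrary, and

* `h(0, 0, 1) ≠ 0`, and no singular point `p` of the curve `h = 0` lies on the line `z = 0`;
* at each singular point `p` there are the data `SqhPoint` of a semi-quasi-homogeneous singularity
  with a number `E = E_p ≥ 0`: `D + 1 ≤ E + 2 (w_0 + w_1) + κ` for `D = ∑ D_i`, and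
  `D + 1 ≤ E + (w_0 + w_1) + M`, if `M = 3 ∑ n_i D_i / d` is an integer;
* the conditions of weight `≥ E_p` at `p` are independent on forms of degree `t - 6`: for some
  `e ≤ t - 5` there are forms `j_0, …, j_e` of degree `e` with `j_i ≡ x ^ (e - i) y ^ i` modulo `z` which
  have the weight `≥ E_p` at `p`, for all singular points `p` (if all `E_p = 0`, then `e = 0`, `j_0 = 1`);
* no linear vector field `V` with divergence zero satisfies `V f = μ f` with `μ ≠ 0`. -/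
def SqhCurve (d : ℕ) (f : MvPolynomial (Fin 3) ℂ) : Prop :=
  ∃ (A : Matrix (Fin 3) (Fin 3) ℂ) (r : ℕ) (F : Fin r → MvPolynomial (Fin 3) ℂ)
    (a n : Fin r → ℕ) (e : ℕ) (j : ℕ → MvPolynomial (Fin 3) ℂ) (g h : MvPolynomial (Fin 3) ℂ),
    IsUnit A.det ∧ g = lc A f ∧ g = ∏ i, F i ^ n i ∧ h = ∏ i, F i ∧ d = ∑ i, n i * a i ∧ 0 < d ∧
    (∀ i, (F i).IsHomogeneous (a i) ∧ 0 < a i ∧ 0 < n i) ∧
    Squarefree h ∧ eval ![0, 0, 1] h ≠ 0 ∧ (e = 0 ∨ e + 5 ≤ ∑ i, a i) ∧
    (∀ i, i ≤ e → (j i).IsHomogeneous e ∧ X 2 ∣ j i - X 0 ^ (e - i) * X 1 ^ i) ∧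
    (∀ Q l, Q l ≠ 0 → eval Q h = 0 → (∀ k, eval Q (pderiv k h) = 0) → Q 2 ≠ 0 ∧
      ∃ E w Φ, SqhPoint F n d E ![Q 0 / Q 2, Q 1 / Q 2] w Φ ∧ ∀ i, i ≤ e → Ge w E (Φ (ch (j i)))) ∧
    ∀ (V : Fin 3 → MvPolynomial (Fin 3) ℂ) (μ : ℂ), (∀ k, (V k).IsHomogeneous 1) →
      ∑ k, pderiv k (V k) = 0 → ∑ k, V k * pderiv k g = C μ * g → μ = 0

end Pool.Agent.KS6_81.CN
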