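import Pool.Agent.KS6_81.CN.LocB
import Pool.Agent.KS6_81.CN.SqDefs
import Pool.Agent.KS6_81.SQ.Thm
import Pool.Graph.R_seed8.W574.CN.Cone

set_option autoImplicit false

/-! # Cones over plane curves with semi-quasi-homogeneous singularities -/

namespace Pool.Agent.KS6_81.CN

open MvPolynomial
open Pool.Agent.H628R4.TP (IsBFunction IsLocalBFunction)
open Pool.Agent.KS6_81.SQ (SqhForm Sqh Cur)

lemma Ge.toO {w : Fin 2 → ℕ} {j : ℕ} {a : MvPolynomial (Fin 2) ℂ} (h : Ge w j a) :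
    Pool.Agent.KS6_81.SQ.O w (j : ℤ) a := by
  intro m hm
  have := h m hm
  unfold Pool.Agent.KS6_81.SQ.wt
  exact_mod_cast this

lemma SqhPoint.toSqh {r : ℕ} {F : Fin r → MvPolynomial (Fin 3) ℂ} {n : Fin r → ℕ} {d E : ℕ}
    {p : Fin 2 → ℂ} {w : Fin 2 → ℕ}
    {Φ : MvPolynomial (Fin 2) ℂ →ₐ[ℂ] MvPolynomial (Fin 2) ℂ}
    (h : SqhPoint F n d E p w Φ) : ∃ (D : Fin r → ℕ) (H : Fin r → MvPolynomial (Fin 2) ℂ)
      (κ : ℕ), Sqh F n d E p w D H Φ κ := by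
  obtain ⟨D, H, h, s, κ, rfl, rfl, h1, h2, h3, h4, h5, h6, h7⟩ := h
  rw [Fin.sum_univ_two] at h6
  simp only [Fin.sum_univ_two w] at h7
  refine ⟨D, H, κ, ⟨fun k => (h1 k).1, fun k => (h1 k).2.1, fun i m hm => by
    have := (h2 i).1 hm
    unfold Pool.Agent.KS6_81.SQ.wt
    exact_mod_cast this, fun q hq hq2 => ?_⟩, fun k => ?_, ?_, h5, fun i => by
      have := (h2 i).2.toO
      push_cast at this
      exact this, h6, h7⟩
  · obtain ⟨k, hk⟩ := Function.ne_iff.1 hq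
    exact h3 q k hk hq2
  · rw [eval_zero]
    exact (h1 k).2.2
  · rw [eval_zero]
    rw [Matrix.det_fin_two] at h4
    exact h4

/-- the condition of the hand-ins on the strong conjecture -/
theorem SqhCurve.toSqhForm {d : ℕ} {f : MvPolynomial (Fin 3) ℂ} (h : SqhCurve d f) :
    SqhForm d f := by
  obtain ⟨A, r, F, a, n, e, j, g, h, hA, hg, hg2, hh, h5, h6, h2, h7, h8, h9, h10, h12, h13⟩ := h
  subst hh
  have hg3 : Pool.Agent.Helper748.MC.lin A f = ∏ i, F i ^ n i := by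
    rw [← hg2, hg]
    rfl
  refine ⟨A, hA, r, F, a, n, e, j, hg3, ⟨fun i => (h2 i).1, fun i => (h2 i).2.1,
    fun i => (h2 i).2.2, h5, h6, h7, h8, h9, fun i hi => (h10 i hi).1, fun i hi => (h10 i hi).2,
    ?_⟩, ?_⟩
  · intro Q hQ g1 g2
    obtain ⟨l, hl⟩ := Function.ne_iff.1 hQ
    obtain ⟨g3, E, w, Φ, g4, g5⟩ := h12 Q l hl g1 g2
    obtain ⟨D, H, κ, g6⟩ := g4.toSqh
    exact ⟨g3, w, D, H, Φ, κ, E, g6, fun i hi => (g5 i hi).toO⟩
  · intro V μ hV hdiv hVf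
    refine h13 V μ hV hdiv ?_
    rw [hg]
    exact hVf

/-- **The root `-3/d` of the cones over the plane curves with semi-quasi-homogeneous
singularities.** -/
theorem SqhCurve.root {d : ℕ} {f : MvPolynomial (Fin 3) ℂ} (hf : f.IsHomogeneous d)
    (h' : SqhCurve d f) {b : Polynomial ℂ} (hb : IsLocalBFunction f b) :
    b.eval (-3 / d : ℂ) = 0 :=
  h'.toSqhForm.root hf (Pool.Agent.W574.MO.global_of_local f h'.toSqhForm.ne_zero d hf b hb)

theorem SqhCurve.hasRoot {d : ℕ} {f : MvPolynomial (Fin 3) ℂ} (hf : f.IsHomogeneous d)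
    (h' : SqhCurve d f) : HasRoot 2 (fun _ => 1) d f := by
  refine ⟨h'.toSqhForm.ne_zero, fun b hb => exact_root ?_⟩
  have h2 := h'.root hf hb
  have h3 : (-((∑ _i : Fin 3, 1 : ℕ) : ℂ) / d) = -3 / d := by
    norm_num
  show b.eval (-((∑ _i : Fin 3, 1 : ℕ) : ℂ) / d) = 0
  rw [h3]
  exact h2

end Pool.Agent.KS6_81.CN
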